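import Pool.Agent.W5h77.Sg2.Cov2

/-!
Successors of singular cardinals of uncountable cofinality and the boldface `Σ_1`-colouring
property.
-/

namespace Pool.Agent.Results.MP_bf1b61_lc.SigmaOneFails

universe u

open Cardinal Ordinal Set Pool.Agent.W5h77.Sg Pool.Agent.W5h77.Sg2

theorem covSets_self {μ lam : Cardinal.{u}} (h0 : 1 < μ) (h : 1 ≤ lam) : CovSets μ μ lam := by
  refine ⟨{Set.univ}, ?_, ?_, ?_⟩
  · rwa [mk_singleton]
  · intro A hA
    rw [mem_singleton_iff] at hA
    rw [hA, mk_univ, mk_ord_toType]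
  · intro B _
    refine ⟨{Set.univ}, Subset.refl _, ?_, ?_⟩
    · rwa [mk_singleton]
    · rw [sUnion_singleton]
      exact subset_univ _

/-- Let `λ` be a singular cardinal of uncountable cofinality `μ` with `2^μ ≤ λ`, such that every
singular cardinal `ν < λ` of cofinality `μ` satisfies `cov(ν, μ⁺, μ⁺, μ) ≤ λ` (for instance
`ν^μ ≤ λ`). Then `λ⁺` does not have the boldface `Σ_1`-colouring property. In particular this
holds for all singular strong limit cardinals `λ` of uncountable cofinality, and for `λ = ℵ_{ω₁}`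
if `2^{ℵ₁} ≤ ℵ_{ω₁}`. -/
theorem result :
    (∀ lam : Cardinal.{u}, lam.IsSingular → ℵ₀ < lam.ord.cof →
      (2 : Cardinal.{u}) ^ lam.ord.cof ≤ lam →
      (∀ ν < lam, ν.IsSingular → ν.ord.cof = lam.ord.cof → CovSets lam.ord.cof ν lam) →
      ¬ BoldSigColouring 1 (Order.succ lam)) ∧
    (∀ lam : Cardinal.{u}, lam.IsSingular → ℵ₀ < lam.ord.cof → lam.IsStrongLimit →
      ¬ BoldSigColouring 1 (Order.succ lam)) ∧
    ((2 : Cardinal.{u}) ^ (ℵ₁ : Cardinal.{u}) ≤ ℵ_ (ω₁ : Ordinal.{u}) →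
      ¬ BoldSigColouring 1 (Order.succ (ℵ_ (ω₁ : Ordinal.{u})))) := by
  have main : ∀ lam : Cardinal.{u}, lam.IsSingular → ℵ₀ < lam.ord.cof →
      (2 : Cardinal.{u}) ^ lam.ord.cof ≤ lam →
      (∀ ν < lam, ν.IsSingular → ν.ord.cof = lam.ord.cof → CovSets lam.ord.cof ν lam) →
      ¬ BoldSigColouring 1 (Order.succ lam) := by
    intro lam h1 h2 h3 h4
    refine main2 lam h2 h1.cof_ord_lt h3 ?_
    intro ν hν hc
    by_cases hs : ν.IsSingular
    · exact h4 ν hν hs hc
    · have h5 : ν.ord.cof ≤ ν := cof_ord_le ν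
      have h6 : ℵ₀ ≤ ν := by
        rw [hc] at h5
        exact h2.le.trans h5
      have h7 := IsRegular.of_not_isSingular h6 hs
      have h8 : ν = lam.ord.cof := by rw [← hc, h7.cof_ord]
      rw [h8]
      exact covSets_self (one_lt_aleph0.trans h2) (one_lt_aleph0.le.trans h1.aleph0_le)
  refine ⟨main, ?_, ?_⟩
  · intro lam h1 h2 h3
    refine main lam h1 h2 (h3.isStrongPrelimit h1.cof_ord_lt).le ?_
    intro ν hν _ _
    refine ⟨{A | #A ≤ lam.ord.cof}, ?_, fun A hA => hA, ?_⟩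
    · refine (mk_subtype_le _).trans ?_
      rw [mk_set, mk_ord_toType]
      exact (h3.isStrongPrelimit hν).le
    · intro B hB
      refine ⟨{B}, ?_, ?_, ?_⟩
      · rw [singleton_subset_iff]
        exact hB
      · rw [mk_singleton]
        exact one_lt_aleph0.trans h2
      · rw [sUnion_singleton]
  · intro h
    have hlim : Order.IsSuccLimit (ω₁ : Ordinal.{u}) := isSuccLimit_omega 1
    have hcof : (ℵ_ (ω₁ : Ordinal.{u})).ord.cof = ℵ₁ := by
      rw [ord_aleph, cof_omega hlim, isRegular_aleph_one.cof_omega_eq]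
    have hlt : (ℵ₁ : Cardinal.{u}) < ℵ_ (ω₁ : Ordinal.{u}) := by
      rw [aleph_lt_aleph]
      exact one_lt_omega0.trans_le (omega0_le_omega 1)
    have hs : (ℵ_ (ω₁ : Ordinal.{u})).IsSingular := by
      rw [isSingular_aleph_iff]
      refine ⟨hlim, ?_⟩
      rw [isRegular_aleph_one.cof_omega_eq]
      exact hlt
    refine main _ hs ?_ ?_ ?_
    · rw [hcof]
      exact aleph0_lt_aleph_one
    · rwa [hcof]
    · intro ν hν hνs hc
      exfalso
      obtain ⟨o, rfl⟩ := mem_range_aleph_iff.2 hνs.aleph0_le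
      rw [aleph_lt_aleph] at hν
      have ho := hνs.isSuccLimit_of_aleph
      rw [hcof, ord_aleph, cof_omega ho] at hc
      have h5 : o.cof ≤ o.card := cof_le_card o
      rw [hc] at h5
      rw [← ord_aleph 1, lt_ord] at hν
      exact absurd h5 (not_le.2 hν)

end Pool.Agent.Results.MP_bf1b61_lc.SigmaOneFails
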